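import Pool.Agent.Y862.SQ.Stm
import Pool.Agent.H305R2.MertensE

set_option autoImplicit false

/-!
# The Poisson law for all windows of bounded mean (helper810)

Adaptation of `Pool.Agent.TH464.PO.Ext` and `Pool.Agent.TH464.PO.Poly`.
-/

namespace Pool.Agent.Y810.SQ

open Finset Filter
open Pool.Agent.Y862.SQ

lemma exp_tail (x : ℝ) (hx : 0 ≤ x) (n : ℕ) :
    Real.exp x - ∑ i ∈ range n, x ^ i / i.factorial ≤ x ^ n / n.factorial * Real.exp x := by
  have hs : HasSum (fun i : ℕ => x ^ i / (i.factorial : ℝ)) (Real.exp x) := by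
    have := NormedSpace.expSeries_div_hasSum_exp (x : ℝ)
    rwa [← Real.exp_eq_exp_ℝ] at this
  have h1 := hs.summable.sum_add_tsum_nat_add n
  rw [hs.tsum_eq] at h1
  have h2 : ∑' i : ℕ, x ^ (i + n) / ((i + n).factorial : ℝ) ≤
      ∑' i : ℕ, x ^ n / n.factorial * (x ^ i / i.factorial) := by
    apply Summable.tsum_le_tsum
    · intro i
      rw [div_mul_div_comm, ← pow_add, add_comm n i]
      apply div_le_div_of_nonneg_left (by positivity) (by positivity)
      have h3 : n.factorial * i.factorial ≤ (i + n).factorial := by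
        have := Nat.factorial_mul_factorial_dvd_factorial_add i n
        rw [mul_comm]
        exact Nat.le_of_dvd (Nat.factorial_pos _) this
      exact_mod_cast h3
    · exact (summable_nat_add_iff n).2 hs.summable
    · exact hs.summable.mul_left _
  rw [tsum_mul_left, hs.tsum_eq] at h2
  linarith

lemma poisson_tail (x : ℝ) (hx : 0 ≤ x) (J : ℕ) (A : Finset ℕ) (hA : ∀ j ∈ A, J ≤ j) :
    ∑ j ∈ A, Real.exp (-x) * x ^ j / j.factorial ≤ x ^ J / J.factorial := by
  have hs : HasSum (fun i : ℕ => x ^ i / (i.factorial : ℝ)) (Real.exp x) := by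
    have := NormedSpace.expSeries_div_hasSum_exp (x : ℝ)
    rwa [← Real.exp_eq_exp_ℝ] at this
  have h1 : ∑ i ∈ range J, x ^ i / (i.factorial : ℝ) + ∑ j ∈ A, x ^ j / (j.factorial : ℝ) ≤ Real.exp x := by
    rw [← Finset.sum_union]
    · exact sum_le_hasSum _ (fun i _ => by positivity) hs
    · rw [Finset.disjoint_left]
      intro i hi hi'
      rw [mem_range] at hi
      have := hA i hi'
      omega
  have h2 := exp_tail x hx J
  have h3 : ∑ j ∈ A, Real.exp (-x) * x ^ j / j.factorial =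
      Real.exp (-x) * ∑ j ∈ A, x ^ j / (j.factorial : ℝ) := by
    rw [Finset.mul_sum]
    apply Finset.sum_congr rfl
    intros
    ring
  rw [h3]
  calc Real.exp (-x) * ∑ j ∈ A, x ^ j / (j.factorial : ℝ) ≤
      Real.exp (-x) * (x ^ J / J.factorial * Real.exp x) := by
        apply mul_le_mul_of_nonneg_left _ (Real.exp_pos _).le
        linarith
    _ = x ^ J / J.factorial * (Real.exp (-x) * Real.exp x) := by ring
    _ = _ := by rw [← Real.exp_add]; simp

lemma extend (Om : Finset ℕ) (W W' : ℕ → ℕ) (hW : ∀ n, W n ≤ W' n) (x x' η : ℝ) (hx : 0 ≤ x)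
    (hxx : x ≤ x')
    (h : |((Om.filter (fun n => W' n ∈ ({0} : Finset ℕ))).card : ℝ) -
      Om.card * ∑ j ∈ ({0} : Finset ℕ), Real.exp (-x') * x' ^ j / j.factorial| ≤ η * Om.card)
    (A : Finset ℕ) :
    |((Om.filter (fun n => W n ∈ A)).card : ℝ) -
      Om.card * ∑ j ∈ A, Real.exp (-x) * x ^ j / j.factorial| ≤ (x' + η) * Om.card := by
  have hOm : (0 : ℝ) ≤ Om.card := Nat.cast_nonneg _
  rw [Finset.sum_singleton] at h
  simp only [pow_zero, Nat.factorial_zero, Nat.cast_one, div_one, mul_one] at h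
  have h1 := (abs_le.1 h).1
  have hexp : 1 - x' ≤ Real.exp (-x') := by
    have := Real.add_one_le_exp (-x')
    linarith
  have hexp2 : Real.exp (-x') ≤ Real.exp (-x) := Real.exp_le_exp.2 (by linarith)
  obtain ⟨q, hq⟩ : ∃ q : ℝ, q = ((Om.filter (fun n => W n = 0)).card : ℝ) := ⟨_, rfl⟩
  have hq1 : (1 - x' - η) * Om.card ≤ q := by
    have h2 : ((Om.filter (fun n => W' n ∈ ({0} : Finset ℕ))).card : ℝ) ≤ q := by
      rw [hq]
      have : (Om.filter (fun n => W' n ∈ ({0} : Finset ℕ))).card ≤ (Om.filter (fun n => W n = 0)).card := by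
        apply card_le_card
        intro n hn
        rw [mem_filter, mem_singleton] at hn
        rw [mem_filter]
        have := hW n
        exact ⟨hn.1, by omega⟩
      exact_mod_cast this
    have h3 : (Om.card : ℝ) * (1 - x') ≤ Om.card * Real.exp (-x') :=
      mul_le_mul_of_nonneg_left hexp hOm
    nlinarith
  have hs0 : 0 ≤ ∑ j ∈ A, Real.exp (-x) * x ^ j / j.factorial := Finset.sum_nonneg fun j _ => by positivity
  have hs1 : ∑ j ∈ A, Real.exp (-x) * x ^ j / j.factorial ≤ 1 := by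
    have := poisson_tail x hx 0 A (fun _ _ => Nat.zero_le _)
    simpa using this
  by_cases h0 : 0 ∈ A
  · have h2 : q ≤ ((Om.filter (fun n => W n ∈ A)).card : ℝ) := by
      rw [hq]
      have : (Om.filter (fun n => W n = 0)).card ≤ (Om.filter (fun n => W n ∈ A)).card := by
        apply card_le_card
        intro n hn
        rw [mem_filter] at hn ⊢
        exact ⟨hn.1, by rw [hn.2]; exact h0⟩
      exact_mod_cast this
    have h3 : ((Om.filter (fun n => W n ∈ A)).card : ℝ) ≤ Om.card := by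
      exact_mod_cast card_le_card (filter_subset _ _)
    have h4 : 1 - x' ≤ ∑ j ∈ A, Real.exp (-x) * x ^ j / j.factorial := by
      have h5 : Real.exp (-x) ≤ ∑ j ∈ A, Real.exp (-x) * x ^ j / j.factorial := by
        have := Finset.single_le_sum (f := fun j : ℕ => Real.exp (-x) * x ^ j / (j.factorial : ℝ))
          (fun j _ => by positivity) h0
        simpa using this
      linarith
    have hη : 0 ≤ η * Om.card := (abs_nonneg _).trans h
    rw [abs_le]
    constructor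
    · nlinarith
    · nlinarith
  · have h2 : ((Om.filter (fun n => W n ∈ A)).card : ℝ) ≤ Om.card - q := by
      have h3 : (Om.filter (fun n => W n ∈ A)).card + (Om.filter (fun n => W n = 0)).card ≤ Om.card := by
        rw [← card_union_of_disjoint]
        · exact card_le_card (union_subset (filter_subset _ _) (filter_subset _ _))
        · rw [Finset.disjoint_left]
          intro n hn hn'
          rw [mem_filter] at hn hn'
          exact h0 (by rw [← hn'.2]; exact hn.2)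
      have h4 : ((Om.filter (fun n => W n ∈ A)).card : ℝ) + (Om.filter (fun n => W n = 0)).card ≤
          Om.card := by exact_mod_cast h3
      rw [hq]
      linarith
    have h4 : ∑ j ∈ A, Real.exp (-x) * x ^ j / j.factorial ≤ x := by
      have := poisson_tail x hx 1 A (fun j hj => Nat.pos_of_ne_zero fun h => h0 (h ▸ hj))
      simpa using this
    have hη : 0 ≤ η * Om.card := (abs_nonneg _).trans h
    have h5 : (0 : ℝ) ≤ ((Om.filter (fun n => W n ∈ A)).card : ℝ) := Nat.cast_nonneg _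
    have h6 : Om.card * ∑ j ∈ A, Real.exp (-x) * x ^ j / j.factorial ≤ x' * Om.card := by
      nlinarith
    have h7 : 0 ≤ Om.card * ∑ j ∈ A, Real.exp (-x) * x ^ j / j.factorial := mul_nonneg hOm hs0
    rw [abs_le]
    constructor
    · nlinarith
    · nlinarith

lemma exists_window (V κ : ℝ) (hV : 0 < V) (hVκ : V ≤ κ) :
    ∃ T' : ℕ, κ ≤ T' * V ∧ T' * V ≤ 2 * κ ∧ ∀ T : ℕ, T * V < κ → T ≤ T' := by
  refine ⟨⌈κ / V⌉₊, ?_, ?_, ?_⟩
  · have := Nat.le_ceil (κ / V)
    rwa [div_le_iff₀ hV] at this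
  · have h0 : 0 ≤ κ / V := div_nonneg (hV.le.trans hVκ) hV.le
    have := (Nat.ceil_lt_add_one h0).le
    calc (⌈κ / V⌉₊ : ℝ) * V ≤ (κ / V + 1) * V := by gcongr
      _ = κ + V := by field_simp
      _ ≤ 2 * κ := by linarith
  · intro T hT
    have h1 : (T : ℝ) < κ / V := by rwa [lt_div_iff₀ hV]
    have h2 : (T : ℝ) < ⌈κ / V⌉₊ := lt_of_lt_of_le h1 (Nat.le_ceil _)
    have h3 : T < ⌈κ / V⌉₊ := by exact_mod_cast h2
    exact h3.le

lemma logpow_rpow (g : ℕ) (M θ : ℝ) (hM : 0 < M) (hθ : 0 < θ) :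
    ∀ᶠ X : ℕ in atTop, M * Real.log X ^ g ≤ (X : ℝ) ^ θ := by
  have h := ((isLittleO_log_rpow_rpow_atTop (g : ℝ) hθ).comp_tendsto
    tendsto_natCast_atTop_atTop).bound (by positivity : (0 : ℝ) < 1 / M)
  filter_upwards [h, eventually_ge_atTop 1] with X h2 hX1
  have hX1' : (1 : ℝ) ≤ X := by exact_mod_cast hX1
  have hlog : 0 ≤ Real.log (X : ℝ) := Real.log_nonneg hX1'
  simp only [Function.comp_def] at h2
  rw [Real.norm_of_nonneg (by positivity), Real.norm_of_nonneg (by positivity), Real.rpow_natCast,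
    ] at h2
  rw [one_div, inv_mul_eq_div, le_div_iff₀ hM] at h2
  linarith

lemma level_low (r : ℕ) (hr : 2 ≤ r) (X : ℕ) (hX : 1 ≤ X) (h2 : 2 ≤ (X : ℝ) ^ (1 / (2 * r : ℝ))) :
    (X : ℝ) ^ (1 / (2 * r : ℝ)) ≤ ⌊(X : ℝ) ^ (1 / (r : ℝ))⌋₊ ∧
    Real.log X / (2 * r) ≤ Real.log ⌊(X : ℝ) ^ (1 / (r : ℝ))⌋₊ ∧
    Real.log ⌊(X : ℝ) ^ (1 / (r : ℝ))⌋₊ ≤ Real.log X ∧ 2 ≤ ⌊(X : ℝ) ^ (1 / (r : ℝ))⌋₊ := by
  have hXpos : (0 : ℝ) < X := by exact_mod_cast hX
  have hX1 : (1 : ℝ) ≤ X := by exact_mod_cast hX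
  have hrr : (2 : ℝ) ≤ r := by exact_mod_cast hr
  have hrpos : (0 : ℝ) < r := by linarith
  have hsplit : (X : ℝ) ^ (1 / (r : ℝ)) = (X : ℝ) ^ (1 / (2 * r : ℝ)) * (X : ℝ) ^ (1 / (2 * r : ℝ)) := by
    rw [← Real.rpow_add hXpos]
    congr 1
    field_simp
    norm_num
  have hylow : (X : ℝ) ^ (1 / (2 * r : ℝ)) ≤ ⌊(X : ℝ) ^ (1 / (r : ℝ))⌋₊ := by
    have h1 := Nat.lt_floor_add_one ((X : ℝ) ^ (1 / (r : ℝ)))
    rw [hsplit] at h1 ⊢
    nlinarith
  have hypos : (0 : ℝ) < ⌊(X : ℝ) ^ (1 / (r : ℝ))⌋₊ := by linarith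
  refine ⟨hylow, ?_, ?_, ?_⟩
  · have h2 : Real.log ((X : ℝ) ^ (1 / (2 * r : ℝ))) ≤ Real.log ⌊(X : ℝ) ^ (1 / (r : ℝ))⌋₊ :=
      Real.log_le_log (by positivity) hylow
    rw [Real.log_rpow hXpos] at h2
    calc Real.log X / (2 * r) = 1 / (2 * r) * Real.log X := by ring
      _ ≤ _ := h2
  · apply Real.log_le_log hypos
    refine (Nat.floor_le (by positivity)).trans ?_
    calc (X : ℝ) ^ (1 / (r : ℝ)) ≤ (X : ℝ) ^ (1 : ℝ) := by
          apply Real.rpow_le_rpow_of_exponent_le hX1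
          rw [div_le_one hrpos]; linarith
      _ = X := Real.rpow_one _
  · have : (2 : ℝ) ≤ ⌊(X : ℝ) ^ (1 / (r : ℝ))⌋₊ := h2.trans hylow
    exact_mod_cast this

lemma mem_pr {p y : ℕ} : p ∈ pr y ↔ p.Prime ∧ p ≤ y := by
  unfold pr
  rw [mem_filter, mem_Icc]
  constructor
  · rintro ⟨⟨_, h2⟩, h3⟩
    exact ⟨h3, h2⟩
  · rintro ⟨h3, h2⟩
    exact ⟨⟨h3.one_lt.le, h2⟩, h3⟩

lemma V1_pos (y : ℕ) : 0 < V1 y := by
  apply Finset.prod_pos
  intro p hp
  have : (2 : ℝ) ≤ p := by exact_mod_cast (mem_pr.1 hp).1.two_le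
  rw [sub_pos, div_lt_one (by linarith)]
  linarith

/-- bounds of Mertens -/
theorem V1_bounds : ∃ c C : ℝ, 0 < c ∧ 0 < C ∧ ∀ y : ℕ, 2 ≤ y →
    c / Real.log y ≤ V1 y ∧ V1 y ≤ C / Real.log y := by
  have h := Pool.Agent.H305R2.mertens_three
  have hb := h.bddAbove_range
  have hinv := (h.inv₀ (Real.exp_ne_zero _)).bddAbove_range
  obtain ⟨C1, hC1⟩ := hb
  obtain ⟨C2, hC2⟩ := hinv
  have key : ∀ y : ℕ, ∏ p ∈ (Finset.Icc 1 y).filter Nat.Prime, (1 - (p : ℝ)⁻¹)⁻¹ = (V1 y)⁻¹ := by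
    intro y
    unfold V1 pr
    rw [← Finset.prod_inv_distrib]
    simp only [one_div]
  have hpos : ∀ y : ℕ, 0 < V1 y := V1_pos
  have h1 : ∀ y : ℕ, (V1 y)⁻¹ / Real.log y ≤ max C1 1 := by
    intro y
    have := hC1 ⟨y, rfl⟩
    simp only [key] at this
    exact this.trans (le_max_left _ _)
  have h2 : ∀ y : ℕ, ((V1 y)⁻¹ / Real.log y)⁻¹ ≤ max C2 1 := by
    intro y
    have := hC2 ⟨y, rfl⟩
    simp only [key] at this
    exact this.trans (le_max_left _ _)
  have hm1 : 0 < max C1 1 := lt_of_lt_of_le one_pos (le_max_right _ _)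
  have hm2 : 0 < max C2 1 := lt_of_lt_of_le one_pos (le_max_right _ _)
  refine ⟨(max C1 1)⁻¹, max C2 1, inv_pos.2 hm1, hm2, ?_⟩
  intro y hy
  have hlog : 0 < Real.log y := Real.log_pos (by exact_mod_cast (by omega : 1 < y))
  have hv := hpos y
  constructor
  · have := h1 y
    rw [div_le_iff₀ hlog, inv_le_comm₀ hv (by positivity)] at this
    rw [div_eq_mul_inv, ← mul_inv]
    exact this
  · have := h2 y
    rw [inv_div, div_inv_eq_mul] at this
    rw [le_div_iff₀ hlog, mul_comm]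
    exact this

lemma Ns_mono (y T T' n : ℕ) (h : T ≤ T') : Ns y T n ≤ Ns y T' n := by
  unfold Ns
  apply card_le_card
  intro m hm
  rw [mem_filter, mem_Icc] at hm ⊢
  exact ⟨⟨hm.1.1, by omega⟩, hm.2⟩

theorem t_LAW2 (h1 : S_LAW) : S_LAW2 := by
  intro θ hθ x0 ε hε
  obtain ⟨κ, hκ⟩ : ∃ κ, κ = min (ε / 8) (1 / 2) := ⟨_, rfl⟩
  have hκ0 : 0 < κ := by rw [hκ]; positivity
  have hκ1 : κ ≤ ε / 8 := by rw [hκ]; exact min_le_left _ _
  have hκ2 : κ ≤ 1 / 2 := by rw [hκ]; exact min_le_right _ _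
  obtain ⟨x1, hx1⟩ : ∃ x1, x1 = max x0 1 := ⟨_, rfl⟩
  have hx11 : 1 ≤ x1 := by rw [hx1]; exact le_max_right _ _
  have hx10 : x0 ≤ x1 := by rw [hx1]; exact le_max_left _ _
  obtain ⟨K0, y0, T0, R0, hlaw⟩ := h1 x1 (ε / 4) (by linarith) (by positivity)
  obtain ⟨c, C, hc, hC, hV⟩ := V1_bounds
  obtain ⟨R1, hR1⟩ : ∃ R1 : ℕ, (K0 : ℝ) / θ ≤ R1 := exists_nat_ge _
  refine ⟨max R1 2, ?_⟩
  intro r hr
  have hr2 : 2 ≤ r := (le_max_right _ _).trans hr
  have hrr : (2 : ℝ) ≤ r := by exact_mod_cast hr2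
  have hrpos : (0 : ℝ) < r := by linarith
  have hrK : (K0 : ℝ) ≤ θ * r := by
    have h1 : (K0 : ℝ) / θ ≤ r := hR1.trans (by exact_mod_cast (le_max_left _ _).trans hr)
    rw [div_le_iff₀ hθ] at h1
    linarith
  have hXr : Tendsto (fun X : ℕ => (X : ℝ)) atTop atTop := tendsto_natCast_atTop_atTop
  have hpow2 : Tendsto (fun X : ℕ => (X : ℝ) ^ (1 / (2 * r : ℝ))) atTop atTop :=
    (tendsto_rpow_atTop (by positivity)).comp hXr
  have hlogX : Tendsto (fun X : ℕ => Real.log (X : ℝ)) atTop atTop :=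
    Real.tendsto_log_atTop.comp hXr
  have hpos : 0 < (x1 / c) ^ R0 + 1 := by
    have : 0 ≤ (x1 / c) ^ R0 := pow_nonneg (div_nonneg (by linarith) hc.le) _
    linarith
  have hev : ∀ᶠ X : ℕ in atTop, ∀ Z Y : ℕ, (X : ℝ) ^ θ ≤ Y → ∀ T : ℕ,
      T * V1 ⌊(X : ℝ) ^ (1 / (r : ℝ))⌋₊ ≤ x0 → ∀ A : Finset ℕ,
      |(((Ioc Z (Z + Y)).filter (fun n => Ns ⌊(X : ℝ) ^ (1 / (r : ℝ))⌋₊ T n ∈ A)).card : ℝ) -
        Y * ∑ j ∈ A, Real.exp (-(T * V1 ⌊(X : ℝ) ^ (1 / (r : ℝ))⌋₊)) *
          (T * V1 ⌊(X : ℝ) ^ (1 / (r : ℝ))⌋₊) ^ j / j.factorial| ≤ ε * Y := by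
    filter_upwards [hpow2.eventually_ge_atTop ((y0 : ℝ) + 3), eventually_ge_atTop 16,
      hlogX.eventually_ge_atTop (2 * r * (1 + C * ((T0 : ℝ) + 1) / κ)),
      logpow_rpow R0 ((x1 / c) ^ R0 + 1) θ hpos hθ] with X hX1 hX16 hX3 hX4
    intro Z Y hXY T hTx A
    have hX16r : (16 : ℝ) ≤ X := by exact_mod_cast hX16
    have hXpos : (0 : ℝ) < X := by linarith
    have hXone : (1 : ℝ) ≤ X := by linarith
    have hy0r : (0 : ℝ) ≤ y0 := Nat.cast_nonneg _
    obtain ⟨hy1, hy2, hy3, hy4⟩ := level_low r hr2 X (by omega) (by linarith)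
    obtain ⟨y, hy⟩ : ∃ y, y = ⌊(X : ℝ) ^ (1 / (r : ℝ))⌋₊ := ⟨_, rfl⟩
    rw [← hy] at hy1 hy2 hy3 hy4 hTx ⊢
    have hyr : (y0 : ℝ) + 3 ≤ y := hX1.trans hy1
    have hyy0 : y0 ≤ y := by
      have : (y0 : ℝ) ≤ y := by linarith
      exact_mod_cast this
    obtain ⟨hVlo, hVup⟩ := hV y hy4
    have hV0 : 0 < V1 y := V1_pos y
    have hlX0 : 0 < Real.log X := Real.log_pos (by linarith)
    have hlogy : 0 < Real.log y := lt_of_lt_of_le (by positivity) hy2
    have hT0r : (0 : ℝ) ≤ T0 := Nat.cast_nonneg _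
    have hY0 : (0 : ℝ) ≤ Y := Nat.cast_nonneg Y
    have hq : 0 ≤ C * ((T0 : ℝ) + 1) / κ := by positivity
    have hlogX1 : 1 + C * ((T0 : ℝ) + 1) / κ ≤ Real.log y := by
      refine le_trans ?_ hy2
      rw [le_div_iff₀ (by positivity)]
      linarith
    have hCT : C * ((T0 : ℝ) + 1) ≤ κ * Real.log y := by
      have h3 : κ * (C * ((T0 : ℝ) + 1) / κ) ≤ κ * Real.log y := by
        apply mul_le_mul_of_nonneg_left _ hκ0.le
        linarith
      have h4 : κ * (C * ((T0 : ℝ) + 1) / κ) = C * ((T0 : ℝ) + 1) := by field_simp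
      rw [h4] at h3
      exact h3
    have hVκ : V1 y ≤ κ := by
      refine hVup.trans ?_
      rw [div_le_iff₀ hlogy]
      nlinarith
    have hyK : y ^ K0 ≤ Y := by
      have h3 : ((y ^ K0 : ℕ) : ℝ) ≤ Y := by
        push_cast
        calc (y : ℝ) ^ K0 ≤ ((X : ℝ) ^ (1 / (r : ℝ))) ^ K0 := by
              apply pow_le_pow_left₀ (Nat.cast_nonneg _)
              rw [hy]
              exact Nat.floor_le (by positivity)
          _ = (X : ℝ) ^ (1 / (r : ℝ) * K0) := by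
              rw [Real.rpow_mul hXpos.le, Real.rpow_natCast]
          _ ≤ (X : ℝ) ^ θ := by
              apply Real.rpow_le_rpow_of_exponent_le hXone
              rw [one_div, inv_mul_eq_div, div_le_iff₀ hrpos]
              exact hrK
          _ ≤ Y := hXY
      exact_mod_cast h3
    have hmain : ∀ T : ℕ, κ ≤ T * V1 y → T * V1 y ≤ x1 → ∀ A : Finset ℕ,
        |(((Ioc Z (Z + Y)).filter (fun n => Ns y T n ∈ A)).card : ℝ) -
          Y * ∑ j ∈ A, Real.exp (-(T * V1 y)) * (T * V1 y) ^ j / j.factorial| ≤ ε / 4 * Y := by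
      intro T hTlo hTup A
      have hTr0 : (0 : ℝ) ≤ T := Nat.cast_nonneg _
      have hTT0 : T0 ≤ T := by
        have h1 : κ ≤ T * (C / Real.log y) := hTlo.trans (mul_le_mul_of_nonneg_left hVup hTr0)
        have h2 : κ * Real.log y ≤ T * C := by
          have := mul_le_mul_of_nonneg_right h1 hlogy.le
          calc κ * Real.log y ≤ T * (C / Real.log y) * Real.log y := this
            _ = T * C := by field_simp
        have h5 : C * ((T0 : ℝ) + 1) ≤ C * T := by linarith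
        have h6 := le_of_mul_le_mul_left h5 hC
        have : (T0 : ℝ) ≤ T := by linarith
        exact_mod_cast this
      have hTR : T ^ R0 ≤ Y := by
        have h1 : (T : ℝ) * (c / Real.log y) ≤ x1 := (mul_le_mul_of_nonneg_left hVlo hTr0).trans hTup
        have h2 : (T : ℝ) ≤ x1 / c * Real.log X := by
          have h3 : (T : ℝ) * c ≤ x1 * Real.log y := by
            calc (T : ℝ) * c = T * (c / Real.log y) * Real.log y := by field_simp
              _ ≤ x1 * Real.log y := mul_le_mul_of_nonneg_right h1 hlogy.le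
          rw [div_mul_eq_mul_div, le_div_iff₀ hc]
          refine h3.trans ?_
          gcongr
        have h3 : ((T ^ R0 : ℕ) : ℝ) ≤ Y := by
          push_cast
          calc (T : ℝ) ^ R0 ≤ (x1 / c * Real.log X) ^ R0 := pow_le_pow_left₀ hTr0 h2 _
            _ = (x1 / c) ^ R0 * Real.log X ^ R0 := by rw [mul_pow]
            _ ≤ ((x1 / c) ^ R0 + 1) * Real.log X ^ R0 := by
              gcongr
              linarith
            _ ≤ (X : ℝ) ^ θ := hX4
            _ ≤ Y := hXY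
        exact_mod_cast h3
      exact hlaw Z Y y T hyy0 hyK hTT0 hTR hTup A
    by_cases hκT : κ ≤ T * V1 y
    · refine (hmain T hκT (hTx.trans hx10) A).trans ?_
      nlinarith
    · rw [not_le] at hκT
      obtain ⟨T', h1, h2, h3⟩ := exists_window (V1 y) κ hV0 hVκ
      have h4 := hmain T' h1 (h2.trans ((by linarith : 2 * κ ≤ 1).trans hx11)) {0}
      have hcard : (Y : ℝ) = ((Ioc Z (Z + Y)).card : ℝ) := by
        rw [Nat.card_Ioc]
        congr 1
        omega
      rw [hcard] at h4 ⊢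
      have h5 := extend (Ioc Z (Z + Y)) (fun n => Ns y T n) (fun n => Ns y T' n)
        (fun n => Ns_mono y T T' n (h3 T hκT)) (T * V1 y) (T' * V1 y) (ε / 4)
        (by positivity) (by linarith) h4 A
      refine h5.trans ?_
      rw [← hcard]
      nlinarith
  obtain ⟨X0, hX0⟩ := eventually_atTop.1 hev
  exact ⟨X0, hX0⟩

end Pool.Agent.Y810.SQ
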